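import Pool.Agent.Helper52.EK.Defs

set_option autoImplicit false

/-!
Project EK (MP_16b0ee_an), E2e: the entropy loss is a continuous function of the target.
-/

open Complex MeasureTheory Metric Set
open scoped Real ComplexConjugate

namespace Pool.Agent.Helper26.EK

open Pool.Agent.Helper52.EK

theorem norm_ep (t θ : ℝ) : ‖ep t θ‖ = Real.exp t := by
  unfold ep
  rw [Complex.norm_exp]
  simp

theorem continuous_ep {X : Type*} [TopologicalSpace X] {f g : X → ℝ} (hf : Continuous f)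
    (hg : Continuous g) : Continuous fun x => ep (f x) (g x) := by
  unfold ep
  fun_prop

/-- E2e -/
theorem Kf_cont {w : ℂ → ℂ} (hw : ContinuousOn w {z | 0 < ‖z‖ ∧ ‖z‖ < 1}) {t₂ : ℝ}
    (h1 : -1 < t₂) (h2 : t₂ < 0) :
    Continuous (fun α : ℝ => Kf w (Complex.exp (α * I)) (-1) t₂) := by
  set cl : ℝ → ℝ := fun t => max (-1) (min t t₂) with hcl
  have hclc : Continuous cl := by
    rw [hcl]
    fun_prop
  have hcl0 : ∀ t, cl t < 0 := by
    intro t
    rw [hcl]
    exact max_lt (by norm_num) ((min_le_right _ _).trans_lt h2)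
  have hcl1 : ∀ t ∈ uIcc (-1) t₂, cl t = t := by
    intro t ht
    rw [uIcc_of_le h1.le] at ht
    rw [hcl]
    simp only
    rw [min_eq_left ht.2, max_eq_right ht.1]
  -- the integrand with `t` replaced by its projection to the interval
  set F : (ℝ × ℝ) × ℝ → ℝ := fun q => (t₂ - q.1.2) *
      Pk (Complex.exp (q.1.1 * I)) (ep (cl q.1.2) q.2) *
      ‖ee (Complex.exp (q.1.1 * I)) (ep (cl q.1.2) q.2) - w (ep (cl q.1.2) q.2)‖ ^ 2 /
        Real.sinh (cl q.1.2) ^ 2 with hF
  have hz : Continuous fun q : (ℝ × ℝ) × ℝ => ep (cl q.1.2) q.2 :=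
    continuous_ep (hclc.comp (continuous_snd.comp continuous_fst)) continuous_snd
  have hnz : ∀ q : (ℝ × ℝ) × ℝ, ‖ep (cl q.1.2) q.2‖ < 1 := by
    intro q
    rw [norm_ep]
    exact Real.exp_lt_one_iff.mpr (hcl0 _)
  have hnz0 : ∀ q : (ℝ × ℝ) × ℝ, 0 < ‖ep (cl q.1.2) q.2‖ := by
    intro q
    rw [norm_ep]
    exact Real.exp_pos _
  have hζ : Continuous fun q : (ℝ × ℝ) × ℝ => Complex.exp (q.1.1 * I) := by
    fun_prop
  have hnζ : ∀ q : (ℝ × ℝ) × ℝ, ‖Complex.exp (q.1.1 * I)‖ = 1 := fun q =>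
    Complex.norm_exp_ofReal_mul_I _
  have hne : ∀ q : (ℝ × ℝ) × ℝ, Complex.exp (q.1.1 * I) - ep (cl q.1.2) q.2 ≠ 0 := by
    intro q h
    have h3 := congrArg norm (sub_eq_zero.1 h)
    rw [hnζ] at h3
    exact (hnz q).ne h3.symm
  have hFc : Continuous F := by
    rw [hF]
    have hsinh : ∀ q : (ℝ × ℝ) × ℝ, Real.sinh (cl q.1.2) ^ 2 ≠ 0 := by
      intro q
      have := Real.sinh_neg_iff.2 (hcl0 q.1.2)
      exact pow_ne_zero 2 this.ne
    have hP : Continuous fun q : (ℝ × ℝ) × ℝ =>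
        Pk (Complex.exp (q.1.1 * I)) (ep (cl q.1.2) q.2) := by
      unfold Pk
      refine Continuous.div ?_ ?_ ?_
      · exact continuous_const.sub (hz.norm.pow 2)
      · exact (hζ.sub hz).norm.pow 2
      · intro q
        exact pow_ne_zero 2 (norm_ne_zero_iff.2 (hne q))
    have hE : Continuous fun q : (ℝ × ℝ) × ℝ =>
        ee (Complex.exp (q.1.1 * I)) (ep (cl q.1.2) q.2) := by
      unfold ee
      refine Continuous.div ?_ ?_ ?_
      · exact continuous_const.sub ((Complex.continuous_conj.comp hz).mul hζ)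
      · exact hζ.sub hz
      · exact hne
    have hW : Continuous fun q : (ℝ × ℝ) × ℝ => w (ep (cl q.1.2) q.2) :=
      hw.comp_continuous hz fun q => ⟨hnz0 q, hnz q⟩
    refine Continuous.div ?_ ?_ hsinh
    · refine Continuous.mul (Continuous.mul ?_ hP) ?_
      · exact continuous_const.sub (continuous_snd.comp continuous_fst)
      · exact (hE.sub hW).norm.pow 2
    · exact (Real.continuous_sinh.comp (hclc.comp (continuous_snd.comp continuous_fst))).pow 2
  -- the integrals
  have h3 : Continuous fun p : ℝ × ℝ => ∫ θ in (-π)..π, F (p, θ) :=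
    intervalIntegral.continuous_parametric_intervalIntegral_of_continuous' (μ := volume)
      (f := fun p : ℝ × ℝ => fun θ => F (p, θ)) hFc (-π) π
  have h4 : Continuous fun α : ℝ => ∫ t in (-1)..t₂, ∫ θ in (-π)..π, F ((α, t), θ) :=
    intervalIntegral.continuous_parametric_intervalIntegral_of_continuous' (μ := volume)
      (f := fun α : ℝ => fun t => ∫ θ in (-π)..π, F ((α, t), θ)) h3 (-1) t₂
  have h5 : (fun α : ℝ => Kf w (Complex.exp (α * I)) (-1) t₂) =
      fun α : ℝ => (2 * π)⁻¹ * ∫ t in (-1)..t₂, ∫ θ in (-π)..π, F ((α, t), θ) := by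
    funext α
    unfold Kf
    congr 1
    refine intervalIntegral.integral_congr fun t ht => ?_
    refine intervalIntegral.integral_congr fun θ _ => ?_
    have h6 := hcl1 t ht
    change _ = (t₂ - t) * Pk (Complex.exp (α * I)) (ep (cl t) θ) *
      ‖ee (Complex.exp (α * I)) (ep (cl t) θ) - w (ep (cl t) θ)‖ ^ 2 / Real.sinh (cl t) ^ 2
    rw [h6]
  rw [h5]
  exact continuous_const.mul h4

end Pool.Agent.Helper26.EK
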